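import Pool.Agent.Lib.MP_441052_gt.Main

set_option autoImplicit false

/-!
# Large first Steklov eigenvalue on the three-dimensional ball
-/

namespace Pool.Agent.Results.MP_441052_gt.PrescribedBall

open Filter Pool.Agent.Lib.MP441052

/-- There are smooth Riemannian metrics `g_n` on the closed ball `B³` of bounded volume and bounded
boundary area with `σ₁(B³, g_n) → ∞`.  Moreover, for every smooth metric `g₀` on `B³`, every
`V > 0` and every `K` there is a smooth metric `g` on `B³` which induces on `S²` the same metric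
as `g₀`, has volume `V`, and has `σ₁(B³, g) ≥ K`. -/
theorem result :
    (∃ g : ℕ → RiemMetric, (∃ C : ℝ, ∀ n, (g n).vol ≤ C ∧ (g n).area ≤ C) ∧
      Tendsto (fun n => (g n).sigma1) atTop atTop) ∧
    ∀ (g₀ : RiemMetric) (V K : ℝ), 0 < V →
      ∃ g : RiemMetric, g.SameBoundary g₀ ∧ g.vol = V ∧ K ≤ g.sigma1 :=
  Pool.Agent.Lib.MP441052.main

end Pool.Agent.Results.MP_441052_gt.PrescribedBall
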